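import Mathlib

/-!
# Shortest flip paths may flip a common contact point

(1) Pseudoline arrangements with contact points, in the usual combinatorial model.  A support is
given by a primitive sorting network with `n` levels: a finite sequence `Q` of commutators, the
`t`-th one joining the levels `Q t` and `Q t + 1`; the Moebius strip is obtained by gluing the level
`i` on the left to the level `n - 1 - i` on the right.
(2) `k`-triangulations of convex polygons.
-/

set_option autoImplicit false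

namespace Pool.Agent.Results.MP_1d99bd_co.FlipCommonContact

/-! ### Sorting networks and the pseudoline arrangements supported by them -/

/-- A network with `n` levels `0, …, n-1` and `m` commutators (from left to right). The commutator
`t` joins the levels `Q t` and `Q t + 1`. -/
structure Network (n m : ℕ) where
  Q : Fin m → ℕ
  lt : ∀ t, Q t + 1 < n

variable {n m : ℕ}

/-- The wire lying on each level after the commutators `0, …, t-1`, when exactly the commutators in
`X` are crossings (the others are contacts). Wires are named by their level at the left end. -/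
def wire (N : Network n m) (X : Finset (Fin m)) : ℕ → ℕ → ℕ
  | 0, l => l
  | t + 1, l =>
    if h : t < m then
      if (⟨t, h⟩ : Fin m) ∈ X then
        (if l = N.Q ⟨t, h⟩ then wire N X t (l + 1)
          else if l = N.Q ⟨t, h⟩ + 1 then wire N X t (l - 1) else wire N X t l)
      else wire N X t l
    else wire N X t l

/-- The two wires that meet at the commutator `t`. -/
def meet (N : Network n m) (X : Finset (Fin m)) (t : Fin m) : Finset ℕ :=
  {wire N X t (N.Q t), wire N X t (N.Q t + 1)}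

/-- `X` is (the set of crossing points of) a pseudoline arrangement supported by the network: the
wire starting at level `l` ends at level `n-1-l` (so it closes up to a non-separating curve of the
Moebius strip), and any two wires cross exactly once. -/
def IsArr (N : Network n m) (X : Finset (Fin m)) : Prop :=
  (∀ l < n, wire N X m (n - 1 - l) = l) ∧
    ∀ i < n, ∀ j < i, (X.filter fun t => meet N X t = {i, j}).card = 1

/-- The pseudoline arrangements supported by the network `N`. -/
def Arr (N : Network n m) : Type := {X : Finset (Fin m) // IsArr N X}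

/-- `v` is a contact point of the arrangement. -/
def IsContact {N : Network n m} (A : Arr N) (v : Fin m) : Prop := v ∉ A.1

/-- `B` is the flip of the contact point `v` in `A`: `v` becomes a crossing point and the crossing
point `w` of the two wires that touch at `v` becomes a contact point. -/
def FlipAt {N : Network n m} (A B : Arr N) (v : Fin m) : Prop :=
  v ∉ A.1 ∧ ∃ w ∈ A.1, meet N A.1 w = meet N A.1 v ∧ B.1 = insert v (A.1.erase w)

/-- A path of `L` flips, `v i` being the contact point flipped in the `i`-th step. -/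
def IsFlipPath {N : Network n m} (L : ℕ) (P : ℕ → Arr N) (v : ℕ → Fin m) : Prop :=
  ∀ i < L, FlipAt (P i) (P (i + 1)) (v i)

/-- `P` is a shortest path of flips from `P 0` to `P L`. -/
def IsShortest {N : Network n m} (L : ℕ) (P : ℕ → Arr N) (v : ℕ → Fin m) : Prop :=
  IsFlipPath L P v ∧
    ∀ (L' : ℕ) (P' : ℕ → Arr N) (v' : ℕ → Fin m),
      IsFlipPath L' P' v' → P' 0 = P 0 → P' L' = P L → L ≤ L'

/-! ### Multitriangulations -/

/-- Two chords `(a,b)`, `(c,d)` of a convex polygon with vertices `0, 1, 2, …` cross. -/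
def Cross (p q : ℕ × ℕ) : Prop :=
  (p.1 < q.1 ∧ q.1 < p.2 ∧ p.2 < q.2) ∨ (q.1 < p.1 ∧ p.1 < q.2 ∧ q.2 < p.2)

instance (p q : ℕ × ℕ) : Decidable (Cross p q) := by unfold Cross; infer_instance

/-- The `k`-relevant diagonals of the `n`-gon: at least `k` vertices on each side. -/
def relevant (k n : ℕ) : Finset (ℕ × ℕ) :=
  (Finset.range n ×ˢ Finset.range n).filter fun p => p.1 + k < p.2 ∧ p.2 + k < p.1 + n

/-- No `k+1` mutually crossing diagonals. -/
def CrossFree (k : ℕ) (T : Finset (ℕ × ℕ)) : Prop :=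
  ∀ S ∈ T.powersetCard (k + 1), ¬ ∀ p ∈ S, ∀ q ∈ S, p ≠ q → Cross p q

/-- `k`-triangulations of the `n`-gon (sets of `k`-relevant diagonals). -/
def IsKTri (k n : ℕ) (T : Finset (ℕ × ℕ)) : Prop :=
  T ⊆ relevant k n ∧ CrossFree k T ∧ ∀ e ∈ relevant k n, e ∉ T → ¬ CrossFree k (insert e T)

/-- The flip graph on the `k`-triangulations of the `n`-gon. -/
def flipGraph (k n : ℕ) : SimpleGraph {T : Finset (ℕ × ℕ) // IsKTri k n T} where
  Adj T U := (T.1 \ U.1).card = 1 ∧ (U.1 \ T.1).card = 1
  symm := ⟨fun _ _ h => ⟨h.2, h.1⟩⟩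
  loopless := ⟨fun _ h => by simp at h⟩

/-! ### Decidability -/

instance (N : Network n m) (X : Finset (Fin m)) : Decidable (IsArr N X) := by
  unfold IsArr; infer_instance

instance (k : ℕ) (T : Finset (ℕ × ℕ)) : Decidable (CrossFree k T) := by
  unfold CrossFree; infer_instance

instance (k n : ℕ) (T : Finset (ℕ × ℕ)) : Decidable (IsKTri k n T) := by
  unfold IsKTri; infer_instance

/-! ### The network example -/

/-- 4 levels, commutators at levels 0,1,0,2,1,2,1,0,1,0 -/
def exN : Network 4 10 where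
  Q := ![0, 1, 0, 2, 1, 2, 1, 0, 1, 0]
  lt := by decide

def x0 : Finset (Fin 10) := {1, 2, 3, 4, 5, 7}
def x1 : Finset (Fin 10) := {1, 2, 4, 5, 6, 7}
def x2 : Finset (Fin 10) := {0, 1, 2, 5, 6, 7}
def x3 : Finset (Fin 10) := {0, 1, 5, 6, 7, 8}
def x4 : Finset (Fin 10) := {0, 1, 5, 7, 8, 9}

theorem arr0 : IsArr exN x0 := by decide +kernel
theorem arr1 : IsArr exN x1 := by decide +kernel
theorem arr2 : IsArr exN x2 := by decide +kernel
theorem arr3 : IsArr exN x3 := by decide +kernel
theorem arr4 : IsArr exN x4 := by decide +kernel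

theorem flips_of_x0 : ∀ v ∉ x0, ∀ w ∈ x0, meet exN x0 w = meet exN x0 v →
    3 ≤ (insert v (x0.erase w) \ x4).card := by decide +kernel

def exP : ℕ → Arr exN
  | 0 => ⟨x0, arr0⟩
  | 1 => ⟨x1, arr1⟩
  | 2 => ⟨x2, arr2⟩
  | 3 => ⟨x3, arr3⟩
  | _ => ⟨x4, arr4⟩

def exV : ℕ → Fin 10
  | 0 => 6
  | 1 => 0
  | 2 => 8
  | _ => 9

theorem exFlip : IsFlipPath 4 exP exV := by
  intro i hi
  have h0 : (6 : Fin 10) ∉ x0 ∧ ∃ w ∈ x0, meet exN x0 w = meet exN x0 6 ∧
      x1 = insert 6 (x0.erase w) := by decide +kernel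
  have h1 : (0 : Fin 10) ∉ x1 ∧ ∃ w ∈ x1, meet exN x1 w = meet exN x1 0 ∧
      x2 = insert 0 (x1.erase w) := by decide +kernel
  have h2 : (8 : Fin 10) ∉ x2 ∧ ∃ w ∈ x2, meet exN x2 w = meet exN x2 8 ∧
      x3 = insert 8 (x2.erase w) := by decide +kernel
  have h3 : (9 : Fin 10) ∉ x3 ∧ ∃ w ∈ x3, meet exN x3 w = meet exN x3 9 ∧
      x4 = insert 9 (x3.erase w) := by decide +kernel
  interval_cases i
  · exact h0
  · exact h1
  · exact h2
  · exact h3

theorem card_le_of_path {N : Network n m} (B : Finset (Fin m)) (L : ℕ) :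
    ∀ (P : ℕ → Arr N) (v : ℕ → Fin m), IsFlipPath L P v → (P L).1 = B → ((P 0).1 \ B).card ≤ L := by
  induction L with
  | zero =>
    intro P v _ h
    rw [h]; simp
  | succ L ih =>
    intro P v hP h
    have h1 := ih (fun i => P (i + 1)) (fun i => v (i + 1)) (fun i hi => hP (i + 1) (by omega)) h
    obtain ⟨_, w, _, _, hw⟩ := hP 0 (by omega)
    have h2 : ((P 0).1 \ B).erase w ⊆ (P (0 + 1)).1 \ B := by
      intro t ht
      rw [hw]
      simp only [Finset.mem_erase, Finset.mem_sdiff, Finset.mem_insert] at ht ⊢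
      tauto
    have h3 := Finset.card_le_card h2
    have h4 := Finset.pred_card_le_card_erase (s := (P 0).1 \ B) (a := w)
    have h5 : ((P (0 + 1)).1 \ B).card ≤ L := h1
    omega

theorem network_part : ∃ (n m : ℕ) (N : Network n m) (L : ℕ) (P : ℕ → Arr N) (v : ℕ → Fin m),
    IsShortest L P v ∧ ∃ i < L, IsContact (P 0) (v i) ∧ IsContact (P L) (v i) := by
  refine ⟨4, 10, exN, 4, exP, exV, ⟨exFlip, ?_⟩, 0, by norm_num, ?_, ?_⟩
  · intro L' P' v' hP' h0 hL
    by_contra hlt
    have hne : L' ≠ 0 := by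
      rintro rfl
      rw [h0] at hL
      have : x0 = x4 := congrArg Subtype.val hL
      revert this
      decide +kernel
    obtain ⟨k, rfl⟩ : ∃ k, L' = k + 1 := ⟨L' - 1, by omega⟩
    have hB : (P' (k + 1)).1 = x4 := by rw [hL]; rfl
    have h1 := card_le_of_path x4 k (fun i => P' (i + 1)) (fun i => v' (i + 1))
      (fun i hi => hP' (i + 1) (by omega)) hB
    obtain ⟨hv, w, hw, hm, he⟩ := hP' 0 (by omega)
    have hP0 : (P' 0).1 = x0 := by rw [h0]; rfl
    rw [hP0] at hv hw hm he
    have h2 := flips_of_x0 (v' 0) hv w hw hm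
    rw [← he] at h2
    have h3 : ((P' (0 + 1)).1 \ x4).card ≤ k := h1
    omega
  · show (6 : Fin 10) ∉ x0
    decide +kernel
  · show (6 : Fin 10) ∉ x4
    decide +kernel

/-! ### The example of 2-triangulations of the octagon -/

def t0 : Finset (ℕ × ℕ) := {(0, 3), (0, 4), (1, 4), (1, 5), (1, 6), (4, 7)}
def t1 : Finset (ℕ × ℕ) := {(0, 3), (0, 4), (1, 4), (1, 6), (3, 6), (4, 7)}
def t2 : Finset (ℕ × ℕ) := {(0, 4), (1, 4), (1, 6), (2, 6), (3, 6), (4, 7)}
def t3 : Finset (ℕ × ℕ) := {(1, 4), (1, 6), (2, 6), (2, 7), (3, 6), (4, 7)}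
def t4 : Finset (ℕ × ℕ) := {(1, 4), (1, 5), (1, 6), (2, 6), (2, 7), (3, 6)}

theorem k0 : IsKTri 2 8 t0 := by decide +kernel
theorem k1 : IsKTri 2 8 t1 := by decide +kernel
theorem k2 : IsKTri 2 8 t2 := by decide +kernel
theorem k3 : IsKTri 2 8 t3 := by decide +kernel
theorem k4 : IsKTri 2 8 t4 := by decide +kernel

theorem flips_of_t0 : ∀ x ∈ t0, ∀ y ∈ relevant 2 8, y ∉ t0 →
    CrossFree 2 (insert y (t0.erase x)) → 3 ≤ (insert y (t0.erase x) \ t4).card := by
  decide +kernel

theorem card_le_length (k n : ℕ) (T U : {T : Finset (ℕ × ℕ) // IsKTri k n T})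
    (p : (flipGraph k n).Walk T U) : (T.1 \ U.1).card ≤ p.length := by
  induction p with
  | nil => simp
  | @cons A B C h q ih =>
    have h1 : A.1 \ C.1 ⊆ (A.1 \ B.1) ∪ (B.1 \ C.1) := by
      intro t ht
      simp only [Finset.mem_sdiff, Finset.mem_union] at ht ⊢
      tauto
    have h2 := (Finset.card_le_card h1).trans (Finset.card_union_le _ _)
    have h3 : (A.1 \ B.1).card = 1 := h.1
    rw [SimpleGraph.Walk.length_cons]
    omega

theorem four_le (A B : {T : Finset (ℕ × ℕ) // IsKTri 2 8 T}) (q : (flipGraph 2 8).Walk A B)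
    (hA : A.1 = t0) (hB : B.1 = t4) : 4 ≤ q.length := by
  cases q with
  | nil =>
    rw [hA] at hB
    exact absurd hB (by decide +kernel)
  | @cons _ W _ h q =>
    have h1 := card_le_length 2 8 _ _ q
    rw [hB] at h1
    have hh1 : (A.1 \ W.1).card = 1 := h.1
    have hh2 : (W.1 \ A.1).card = 1 := h.2
    rw [hA] at hh1 hh2
    have h2 : 3 ≤ (W.1 \ t4).card := by
      obtain ⟨x, hx⟩ := Finset.card_eq_one.1 hh1
      obtain ⟨y, hy⟩ := Finset.card_eq_one.1 hh2
      have hx' : x ∈ t0 := (Finset.mem_sdiff.1 (hx ▸ Finset.mem_singleton_self x)).1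
      have hyW : y ∈ W.1 \ t0 := hy ▸ Finset.mem_singleton_self y
      rw [Finset.mem_sdiff] at hyW
      have hW : W.1 = insert y (t0.erase x) := by
        ext t
        have e1 : t ∈ t0 \ W.1 ↔ t = x := by
          rw [← Finset.mem_singleton, ← hx]
        have e2 : t ∈ W.1 \ t0 ↔ t = y := by
          rw [← Finset.mem_singleton, ← hy]
        rw [Finset.mem_sdiff] at e1 e2
        rw [Finset.mem_insert, Finset.mem_erase]
        tauto
      have := flips_of_t0 x hx' y (W.2.1 hyW.1) hyW.2 (hW ▸ W.2.2.1)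
      rw [hW]
      exact this
    rw [SimpleGraph.Walk.length_cons]
    omega

theorem triangulation_part : ∃ (k n : ℕ) (T U : {T : Finset (ℕ × ℕ) // IsKTri k n T})
    (p : (flipGraph k n).Walk T U), p.length = (flipGraph k n).dist T U ∧
      ∃ d ∈ p.darts, ∃ e ∈ T.1 ∩ U.1, e ∈ d.fst.1 ∧ e ∉ d.snd.1 := by
  have a01 : (flipGraph 2 8).Adj ⟨t0, k0⟩ ⟨t1, k1⟩ := by
    show (t0 \ t1).card = 1 ∧ (t1 \ t0).card = 1; decide +kernel
  have a12 : (flipGraph 2 8).Adj ⟨t1, k1⟩ ⟨t2, k2⟩ := by
    show (t1 \ t2).card = 1 ∧ (t2 \ t1).card = 1; decide +kernel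
  have a23 : (flipGraph 2 8).Adj ⟨t2, k2⟩ ⟨t3, k3⟩ := by
    show (t2 \ t3).card = 1 ∧ (t3 \ t2).card = 1; decide +kernel
  have a34 : (flipGraph 2 8).Adj ⟨t3, k3⟩ ⟨t4, k4⟩ := by
    show (t3 \ t4).card = 1 ∧ (t4 \ t3).card = 1; decide +kernel
  let p : (flipGraph 2 8).Walk ⟨t0, k0⟩ ⟨t4, k4⟩ :=
    .cons a01 (.cons a12 (.cons a23 (.cons a34 .nil)))
  refine ⟨2, 8, ⟨t0, k0⟩, ⟨t4, k4⟩, p, ?_, ⟨⟨_, _⟩, a01⟩, ?_, (1, 5), ?_, ?_, ?_⟩
  · apply le_antisymm
    · obtain ⟨q, hq⟩ := p.reachable.exists_walk_length_eq_dist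
      rw [← hq]
      exact four_le _ _ q rfl rfl
    · exact (flipGraph 2 8).dist_le p
  · simp [p]
  · show ((1, 5) : ℕ × ℕ) ∈ t0 ∩ t4
    decide +kernel
  · show ((1, 5) : ℕ × ℕ) ∈ t0
    decide +kernel
  · show ((1, 5) : ℕ × ℕ) ∉ t1
    decide +kernel

/-- There are a support, a shortest path of flips between two pseudoline arrangements on it, and a
common contact point of the two arrangements that is flipped on that path. The same happens for
common edges of `k`-triangulations of a convex polygon. -/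
theorem result :
    (∃ (n m : ℕ) (N : Network n m) (L : ℕ) (P : ℕ → Arr N) (v : ℕ → Fin m),
      IsShortest L P v ∧ ∃ i < L, IsContact (P 0) (v i) ∧ IsContact (P L) (v i)) ∧
    (∃ (k n : ℕ) (T U : {T : Finset (ℕ × ℕ) // IsKTri k n T}) (p : (flipGraph k n).Walk T U),
      p.length = (flipGraph k n).dist T U ∧
        ∃ d ∈ p.darts, ∃ e ∈ T.1 ∩ U.1, e ∈ d.fst.1 ∧ e ∉ d.snd.1) :=
  ⟨network_part, triangulation_part⟩

end Pool.Agent.Results.MP_1d99bd_co.FlipCommonContact
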